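import Mathlib
import Pool.Agent.H983R4.GL.F3
import Pool.Agent.H855R2.SF.Dir

/-!
# Large values of L-functions of `GL(m)` on the critical line are never isolated

Let `0 < κ < μ` and let `π` run through (a family of) cuspidal representations of `GL(m)`, normalised as in the
problem.  Put `X = (1 + |T|) C_π`.  If `|L(1/2 + iT, π)| ≥ X^μ` and `X` is large then `|L(1/2 + ix, π)| > X^κ`
on a proportion at least `δ` of `[T - h, T + h]`, for every `0 < h ≤ 1`, whatever the scale `h`; here `δ > 0`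
depends only on `κ`, `μ` and the family, not on `π`, `T`, `h`.  Consequently the bound
`|L(1/2 + iT, π)| = O(X^(κ + ε))` holds at every point of a set `S` of pairs `(π, T)` (for example at the
central points `T = 0`) as soon as it holds, for each `(π, T)` in `S`, outside a set that fills a proportion
tending to zero (as `X → ∞`) of one window `[T - w, T + w]`, `w = w(π, T)` in `(0, 1]` arbitrary; and the
Grand Lindelöf Hypothesis for the family is equivalent to the bound `o(log X)` for the mean of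
`log⁺ |L(1/2 + ix, π)|` over `[T - w, T + w]`, for any such choice of windows.

The theorem uses only classical facts: the functional equation, `Re μ_j < 1/2`, finite order, and Molteni's
bound `L(σ + it, π) = O(C_π^ε)` in `σ ≥ 1 + ε`.  For primitive Dirichlet characters of modulus `q > 1`
(`m = 1`) all of them are proved and the result holds with `X = q (1 + |T|)`.

Proof.  Jensen's formula on a circle with centre `1/2 + iT` and radius `r = r(κ, μ) h` and the functional
equation bound `log |L(1/2 + iT)|` by the mean of `log⁺ |L|` over the right half of the circle and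
`O(r log X)`.  The Poisson-Jensen inequality in the half plane `Re s > 1/2` bounds `log⁺ |L|` at the points of
this half circle by means of `log⁺ |L|` over the critical line, and these are less than `μ log X` if
`|L(1/2 + ix)| ≤ X^κ` for all but a small proportion of `[T - h, T + h]`.
-/

set_option autoImplicit false

open Filter Topology MeasureTheory Real Set

namespace Pool.Agent.Results.MP_52e316_nt.PersistentLargeValues

/-- The data of a standard L-function of `GL(m)`: the conductor `N`, the archimedean parameters `mu j` (the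
factor at infinity is `∏ j, Γ_ℝ (s - mu j)`) and the L-function `f` (continued to the complex plane). -/
structure Datum (m : ℕ) where
  N : ℕ
  mu : Fin m → ℂ
  f : ℂ → ℂ

/-- The analytic conductor `C = N ∏ j, (1 + |mu j|)`. -/
noncomputable def Datum.C {m : ℕ} (D : Datum m) : ℝ := D.N * ∏ j, (1 + ‖D.mu j‖)

/-- The classical properties: `N ≥ 1`, `Re (mu j) < 1/2`, `f` is entire, of finite order in the strip
`-1/4 ≤ Re s ≤ 5/4`, and satisfies the functional equation `Λ(s) = root N^(1/2-s) conj (Λ(1 - conj s))`,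
`Λ(s) = f(s) ∏ j, Γ_ℝ (s - mu j)`, with `|root| = 1` (divided by the gamma factors of both sides). -/
structure Datum.Ok {m : ℕ} (D : Datum m) : Prop where
  N_pos : 0 < D.N
  mu_re : ∀ j, (D.mu j).re < 1 / 2
  entire : Differentiable ℂ D.f
  order : ∃ A : ℝ, ∀ s : ℂ, -1 / 4 ≤ s.re → s.re ≤ 5 / 4 →
    ‖D.f s‖ ≤ Real.exp (A * (1 + |s.im|) ^ A)
  fe : ∃ root : ℂ, ‖root‖ = 1 ∧ ∀ s : ℂ,
    D.f s * ∏ j, (Complex.Gammaℝ (1 - s - (starRingEnd ℂ) (D.mu j)))⁻¹ =
      root * (D.N : ℂ) ^ (1 / 2 - s) * (starRingEnd ℂ) (D.f (1 - (starRingEnd ℂ) s)) *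
        ∏ j, (Complex.Gammaℝ (s - D.mu j))⁻¹

/-- Molteni's bound to the right of the critical strip, uniform in the family. -/
def Molteni {ι : Type} {m : ℕ} (D : ι → Datum m) : Prop := ∀ ε : ℝ, 0 < ε → ∃ B : ℝ, ∀ (i : ι) (s : ℂ),
  1 + ε ≤ s.re → ‖(D i).f s‖ ≤ B * (D i).C ^ ε

variable {ι : Type}

/-- Large values persist at all scales, uniformly in the family `L i` with conductors `X i T`. -/
def Persistent (L : ι → ℂ → ℂ) (X : ι → ℝ → ℝ) : Prop := ∀ κ μ : ℝ, 0 < κ → κ < μ →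
  ∃ δ X₀ : ℝ, 0 < δ ∧ ∀ (i : ι) (T : ℝ), X₀ ≤ X i T → X i T ^ μ ≤ ‖L i (1 / 2 + T * Complex.I)‖ →
    ∀ h : ℝ, 0 < h → h ≤ 1 →
      ENNReal.ofReal (δ * h) < volume {x : ℝ | |x - T| ≤ h ∧ X i T ^ κ < ‖L i (1 / 2 + x * Complex.I)‖}

/-- `|L i (1/2 + iT)| = O(X^(κ + ε))` at all points `(i, T)` of `S`. -/
def Exponent (L : ι → ℂ → ℂ) (X : ι → ℝ → ℝ) (S : Set (ι × ℝ)) (κ : ℝ) : Prop :=
  ∀ ε : ℝ, 0 < ε → ∃ B : ℝ, ∀ (i : ι) (T : ℝ), (i, T) ∈ S →
    ‖L i (1 / 2 + T * Complex.I)‖ ≤ B * X i T ^ (κ + ε)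

/-- For every `ε > 0`, the points of `[T - w, T + w]` at which `|L i (1/2 + ix)| > X^(κ + ε)` have measure
`o(w)` as `X → ∞`, uniformly for `(i, T)` in `S`. -/
def MeasureExponent (L : ι → ℂ → ℂ) (X : ι → ℝ → ℝ) (S : Set (ι × ℝ)) (w : ι → ℝ → ℝ) (κ : ℝ) : Prop :=
  ∀ ε : ℝ, 0 < ε → ∀ η : ℝ, 0 < η → ∃ X₀ : ℝ, ∀ (i : ι) (T : ℝ), (i, T) ∈ S → X₀ ≤ X i T →
    volume {x : ℝ | |x - T| ≤ w i T ∧ X i T ^ (κ + ε) < ‖L i (1 / 2 + x * Complex.I)‖} ≤
      ENNReal.ofReal (η * w i T)

/-- The mean of `log⁺ |L i (1/2 + ix)|` over `[T - w, T + w]` is `o(log X)` as `X → ∞`, uniformly. -/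
def LogMean (L : ι → ℂ → ℂ) (X : ι → ℝ → ℝ) (w : ι → ℝ → ℝ) : Prop :=
  ∀ ε : ℝ, 0 < ε → ∃ X₀ : ℝ, ∀ (i : ι) (T : ℝ), X₀ ≤ X i T →
    ∫ x in (T - w i T)..(T + w i T), log⁺ ‖L i (1 / 2 + x * Complex.I)‖ ≤ ε * w i T * Real.log (X i T)

/-- The conclusion for a family. -/
def Conclusion (L : ι → ℂ → ℂ) (X : ι → ℝ → ℝ) : Prop :=
  Persistent L X ∧ ∀ w : ι → ℝ → ℝ, (∀ i T, 0 < w i T ∧ w i T ≤ 1) →
    (∀ κ : ℝ, 0 ≤ κ → (∀ S : Set (ι × ℝ), MeasureExponent L X S w κ → Exponent L X S κ) ∧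
      (Exponent L X univ κ ↔ MeasureExponent L X univ w κ)) ∧
    (Exponent L X univ 0 ↔ LogMean L X w)

section proofs

open Pool.Agent.H983R4.GL H855R2.SF

theorem conclusion_of {L : ι → ℂ → ℂ} {X : ι → ℝ → ℝ} (H : Fam L X) : Conclusion L X := by
  have hc := H.conc
  refine ⟨fun κ μ h1 h2 => ?_, fun w hw => ⟨fun κ hκ => ⟨fun S h => ?_, ?_⟩, ?_⟩⟩
  · obtain ⟨δ, hδ, X₀, h⟩ := hc.persist κ μ h1 h2
    exact ⟨δ, X₀, hδ, h⟩
  · exact hc.points κ S w hκ hw h
  · refine (hc.meas_iff κ w hκ hw).trans ⟨fun h ε hε η hη => ?_, fun h ε hε η hη => ?_⟩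
    · obtain ⟨X₀, hX₀⟩ := h ε hε η hη
      exact ⟨X₀, fun i T _ hX => hX₀ i T hX⟩
    · obtain ⟨X₀, hX₀⟩ := h ε hε η hη
      exact ⟨X₀, fun i T hX => hX₀ i T (mem_univ _) hX⟩
  · exact hc.log_iff w hw

theorem Datum.C_one {m : ℕ} {D : Datum m} (h : 0 < D.N) : 1 ≤ D.C := by
  have := cond_one_le h D.mu 0
  unfold Datum.C
  simpa using this

theorem afam_gl {m : ℕ} (hm : 1 ≤ m) {D : ι → Datum m} (hD : ∀ i, (D i).Ok) (hM : Molteni D) :
    AFam (m : ℝ) (fun i => (D i).f) (fun i t => ((1 + |t|) * (D i).C) ^ (m : ℝ)) where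
  m0 := by positivity
  Q1 := by
    intro i t
    refine Real.one_le_rpow ?_ (by positivity)
    have h1 := (D i).C_one (hD i).N_pos
    nlinarith [abs_nonneg t]
  Qs := by
    intro i t u
    have h1 := (D i).C_one (hD i).N_pos
    have h2 : 1 + |t + u| ≤ (1 + |u|) * (1 + |t|) := by
      have := abs_add_le t u
      nlinarith [abs_nonneg t, abs_nonneg u, mul_nonneg (abs_nonneg t) (abs_nonneg u)]
    rw [← Real.mul_rpow (by positivity) (by positivity)]
    refine Real.rpow_le_rpow (by positivity) ?_ (by positivity)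
    calc (1 + |t + u|) * (D i).C ≤ ((1 + |u|) * (1 + |t|)) * (D i).C :=
          mul_le_mul_of_nonneg_right h2 (by linarith)
      _ = _ := by ring
  diff := fun i => (hD i).entire
  order := fun i => (hD i).order
  right := by
    intro δ hδ
    obtain ⟨B, hB⟩ := hM δ hδ
    refine ⟨|B|, fun i s hs => ?_⟩
    have h1 := (D i).C_one (hD i).N_pos
    refine (hB i s hs).trans ?_
    have h2 : (D i).C ≤ (1 + |s.im|) * (D i).C := by
      nlinarith [abs_nonneg s.im]
    have h3 : (D i).C ≤ ((1 + |s.im|) * (D i).C) ^ (m : ℝ) := by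
      refine h2.trans ?_
      conv_lhs => rw [← Real.rpow_one ((1 + |s.im|) * (D i).C)]
      exact Real.rpow_le_rpow_of_exponent_le (by linarith) (by exact_mod_cast hm)
    calc B * (D i).C ^ δ ≤ |B| * (D i).C ^ δ :=
          mul_le_mul_of_nonneg_right (le_abs_self B) (Real.rpow_nonneg (by linarith) _)
      _ ≤ _ := mul_le_mul_of_nonneg_left (Real.rpow_le_rpow (by linarith) h3 hδ.le) (abs_nonneg B)
  refl := by
    refine ⟨16 ^ m, by positivity, fun i x t hx0 hx1 => ?_⟩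
    obtain ⟨root, hroot, hfe⟩ := (hD i).fe
    have h1 := (D i).C_one (hD i).N_pos
    refine (refl_of_fe (hD i).N_pos (D i).mu (hD i).mu_re hroot hfe (t := t) hx0 hx1).trans ?_
    refine mul_le_mul_of_nonneg_right ?_ (norm_nonneg _)
    refine mul_le_mul_of_nonneg_left ?_ (by positivity)
    refine Real.rpow_le_rpow (by positivity) ?_ hx0
    have h2 := cond_shift (D i).N (D i).mu 0 t
    have e1 : (D i).N * ∏ j, (1 + ‖(D i).mu j - ((0 : ℝ) : ℂ) * Complex.I‖) = (D i).C := by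
      unfold Datum.C; simp
    rw [e1, zero_add] at h2
    refine h2.trans ?_
    rw [Real.mul_rpow (by positivity) (by linarith)]
    refine mul_le_mul_of_nonneg_left ?_ (by positivity)
    conv_lhs => rw [← Real.rpow_one (D i).C]
    exact Real.rpow_le_rpow_of_exponent_le h1 (by exact_mod_cast hm)

theorem fam_dir : Fam (dirL (S := fun _ _ => True)) (dirQ (S := fun _ _ => True)) :=
  Fam.of_afam (p := 1) (dir_afam _) one_pos (dir_afam _).Q1 fun i t => by rw [Real.rpow_one]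

theorem Fam.comp {ι' : Type} {L : ι → ℂ → ℂ} {X : ι → ℝ → ℝ} (H : Fam L X) (g : ι' → ι) :
    Fam (fun i => L (g i)) (fun i => X (g i)) where
  one := fun i t => H.one (g i) t
  ld := by
    obtain ⟨p, C, m, K, hp, hC, hm, hK, h⟩ := H.ld
    exact ⟨p, C, m, K, hp, hC, hm, hK, fun i T => h (g i) T⟩
  shift := by
    obtain ⟨m, hm, h⟩ := H.shift
    exact ⟨m, hm, fun i t u => h (g i) t u⟩

end proofs

theorem result :
    (∀ (ι : Type) (m : ℕ) (D : ι → Datum m), 1 ≤ m → (∀ i, (D i).Ok) → Molteni D →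
      Conclusion (fun i => (D i).f) (fun i T => (1 + |T|) * (D i).C)) ∧
    (∀ (ι : Type) (q : ι → ℕ) [∀ i, NeZero (q i)] (χ : (i : ι) → DirichletCharacter ℂ (q i)),
      (∀ i, 1 < q i ∧ (χ i).IsPrimitive) →
      Conclusion (fun i => DirichletCharacter.LFunction (χ i)) (fun i T => (q i : ℝ) * (1 + |T|))) := by
  refine ⟨fun ι m D hm hD hM => conclusion_of ?_, fun ι q _ χ h => conclusion_of ?_⟩
  · refine Pool.Agent.H983R4.GL.Fam.of_afam (p := m) (afam_gl hm hD hM) (by exact_mod_cast hm) ?_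
      fun _ _ => rfl
    intro i t
    have h1 := (D i).C_one (hD i).N_pos
    nlinarith [abs_nonneg t]
  · exact Fam.comp fam_dir (fun i => (⟨q i, (h i).1, χ i, (h i).2, trivial⟩ :
      H855R2.SF.DC (fun _ _ => True)))

end Pool.Agent.Results.MP_52e316_nt.PersistentLargeValues
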