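import Mathlib
import Pool.Agent.H983R4.GL.S3
import Pool.Agent.Results.MP_52e316_nt.PersistentLargeValues

/-!
# The Grand Lindelöf Hypothesis and positive proportions of short windows

Let `π` run through (a family of) cuspidal representations of `GL(m)`, normalised as in the problem, and put
`X = (1 + |T|) C_π`.  We prove that the Grand Lindelöf Hypothesis holds for the family if and only if, for every
`ε > 0`, there is `η > 0` such that for all `(π, T)` with `X` large the bound `|L(1/2 + ix, π)| ≤ X^ε` holds for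
a proportion `η` of the points `x` of ONE window `[T - h, T + h]`, where the radius
`h = h(π, T) ≤ η ε / (10 π m)` may be as small as we please.  If it is false, and `θ > 0` is the least exponent
with `|L(1/2 + iT, π)| = O(X^(θ + ε))` for all `ε > 0`, then near-maximal values spread: for all `δ, η > 0`
there are `(π, T)`, with `X` arbitrarily large, such that `|L(1/2 + ix, π)|` exceeds `X^(θ - δ)` for all but a
proportion `η` of the points of EVERY window `[T - h, T + h]` with `h ≤ η δ / (10 π m)`.

The definitions and the classical facts used are those of `PersistentLargeValues`; that theorem starts from any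
large value and gives a positive proportion of large values around it; here the values are near-maximal for the
family and fill almost all of every short window, so that a positive proportion of small values suffices for
the Grand Lindelöf Hypothesis.  For primitive Dirichlet characters of modulus `q > 1` all is unconditional.

Proof.  The Poisson-Jensen inequality in the half plane `Re s > 1/2` gives a bound `(θ - c η δ a / h) log X` for
`log |L|` at distance `a ≤ h` from the critical line, near `1/2 + iT`, if `|L| ≤ X^(θ - δ)` on a proportion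
`η` of the window.  Jensen's inequality on the circle with centre `1/2 + iT` and radius `h` and the functional
equation carry this over to the point `1/2 + iT`; the reflection costs at most `m a log X`, which is less than
the gain as `h ≤ η δ / (10 π m)`.
-/

set_option autoImplicit false

open Filter Topology MeasureTheory Real Set

namespace Pool.Agent.Results.MP_52e316_nt.PositiveProportion

open Pool.Agent.Results.MP_52e316_nt.PersistentLargeValues (Datum Molteni Exponent)

variable {ι : Type}

/-- The points `x` of the window `[T - h, T + h]` at which `|L i (1/2 + ix)| ≤ X^κ`, `X = X i T`. -/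
def Small (L : ι → ℂ → ℂ) (X : ι → ℝ → ℝ) (κ : ℝ) (i : ι) (T h : ℝ) : Set ℝ :=
  {x : ℝ | |x - T| ≤ h ∧ ‖L i (1 / 2 + x * Complex.I)‖ ≤ X i T ^ κ}

/-- The conclusion for a family of functions `L i` with conductors `X i T`. -/
def Conclusion (L : ι → ℂ → ℂ) (X : ι → ℝ → ℝ) (m : ℝ) : Prop :=
  (Exponent L X univ 0 ↔ ∀ ε : ℝ, 0 < ε → ∃ η : ℝ, 0 < η ∧ η ≤ 1 ∧ ∃ X₀ : ℝ, ∀ (i : ι) (T : ℝ),
    X₀ ≤ X i T → ∃ h : ℝ, 0 < h ∧ h ≤ 1 / 2 ∧ h ≤ η * ε / (10 * π * m) ∧
      ENNReal.ofReal (η * (2 * h)) ≤ volume (Small L X ε i T h)) ∧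
  ∃ θ : ℝ, 0 ≤ θ ∧ Exponent L X univ θ ∧ (∀ θ' : ℝ, 0 ≤ θ' → Exponent L X univ θ' → θ ≤ θ') ∧
    ∀ δ η X₀ : ℝ, 0 < δ → δ ≤ θ → 0 < η → η ≤ 1 → ∃ (i : ι) (T : ℝ), X₀ ≤ X i T ∧
      ∀ h : ℝ, 0 < h → h ≤ 1 / 2 → h ≤ η * δ / (10 * π * m) →
        volume (Small L X (θ - δ) i T h) < ENNReal.ofReal (η * (2 * h))

open Pool.Agent.H983R4.GL H855R2.SF in
theorem conclusion_of {k p : ℝ} {L : ι → ℂ → ℂ} {X : ι → ℝ → ℝ}
    (H : AFam k L (fun i t => X i t ^ p)) (hp : 0 < p) (h1 : ∀ i t, 1 ≤ X i t) :
    Conclusion L X p := by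
  refine ⟨lind_iff_scaled H hp h1 (fun _ _ => rfl), ?_⟩
  obtain ⟨θ, hθ0, hθ, hmin, hsp⟩ := spread_scaled H hp h1 (fun _ _ => rfl)
  refine ⟨θ, hθ0, hθ, hmin, fun δ η X₀ hδ hδθ hη hη1 => ?_⟩
  have h2 := hsp δ η hδ hδθ hη hη1
  unfold Somewhere at h2
  push Not at h2
  obtain ⟨i, T, hX, h3⟩ := h2 X₀
  exact ⟨i, T, hX, fun h a b c => h3 h a b c⟩

theorem result :
    (∀ (ι : Type) (m : ℕ) (D : ι → Datum m), 1 ≤ m → (∀ i, (D i).Ok) → Molteni D →
      Conclusion (fun i => (D i).f) (fun i T => (1 + |T|) * (D i).C) m) ∧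
    (∀ (ι : Type) (q : ι → ℕ) [∀ i, NeZero (q i)] (χ : (i : ι) → DirichletCharacter ℂ (q i)),
      (∀ i, 1 < q i ∧ (χ i).IsPrimitive) →
      Conclusion (fun i => DirichletCharacter.LFunction (χ i)) (fun i T => (q i : ℝ) * (1 + |T|)) 1) := by
  refine ⟨fun ι m D hm hD hM => conclusion_of
    (Pool.Agent.Results.MP_52e316_nt.PersistentLargeValues.afam_gl hm hD hM) (by exact_mod_cast hm) ?_,
    fun ι q _ χ h => ?_⟩
  · intro i t
    have h1 := (D i).C_one (hD i).N_pos
    nlinarith [abs_nonneg t]
  · have H := H855R2.SF.dir_afam (fun _ _ => True)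
    set g : ι → H855R2.SF.DC (fun _ _ => True) :=
      fun i => ⟨q i, (h i).1, χ i, (h i).2, trivial⟩ with hg
    have H' : H855R2.SF.AFam 1 (fun i => DirichletCharacter.LFunction (χ i))
        (fun i t => ((q i : ℝ) * (1 + |t|)) ^ (1 : ℝ)) := by
      refine ⟨H.m0, fun i t => ?_, fun i t u => ?_, fun i => H.diff (g i), fun i => H.order (g i),
        fun δ hδ => ?_, ?_⟩
      · rw [Real.rpow_one]; exact H.Q1 (g i) t
      · rw [Real.rpow_one, Real.rpow_one ((q i : ℝ) * (1 + |t|))]; exact H.Qs (g i) t u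
      · obtain ⟨B, hB⟩ := H.right δ hδ
        refine ⟨B, fun i s hs => ?_⟩
        rw [Real.rpow_one]; exact hB (g i) s hs
      · obtain ⟨C, hC, hr⟩ := H.refl
        refine ⟨C, hC, fun i x t h0 h1 => ?_⟩
        rw [Real.rpow_one]; exact hr (g i) x t h0 h1
    exact conclusion_of H' one_pos fun i t => H.Q1 (g i) t

end Pool.Agent.Results.MP_52e316_nt.PositiveProportion
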